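import Pool.Agent.Helper54.FP.Inst
import Pool.Agent.Helper54.FP.LaurentMaps
import Pool.Agent.Helper88.FP.Indep

/-!
# FP-19: extension of constants
-/

set_option autoImplicit false
set_option linter.unusedVariables false
set_option linter.unusedSectionVars false
open scoped Pointwise

namespace Pool.Agent.Helper54.FP

section ge
variable {p : ℕ} [Fact p.Prime] {G : Type} [Group G] [Fintype G] [DecidableEq G]

theorem ge_umat_map {Ω Ω' : Type} [CommRing Ω] [CommRing Ω'] (δ : Ω →+* Ω') (τ : G) (u : Ω) :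
    (Umat p τ u).map δ = Umat p τ (δ u) := by
  ext a b
  simp only [Matrix.map_apply, Umat, map_sum]
  refine Finset.sum_congr rfl fun c _ => ?_
  split_ifs <;> simp

/-- The Artin-Schreier polynomial. -/
noncomputable def geAS (p : ℕ) {E : Type} [CommRing E] (g : E) : Polynomial E :=
  Polynomial.X ^ p - (Polynomial.X + Polynomial.C g)

theorem geAS_monic {E : Type} [CommRing E] [Nontrivial E] (g : E) : (geAS p g).Monic := by
  have hp : 1 < p := (Fact.out : p.Prime).one_lt
  unfold geAS
  apply Polynomial.monic_X_pow_sub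
  rw [Polynomial.degree_X_add_C]
  exact_mod_cast hp

theorem geAS_natDegree {E : Type} [CommRing E] [Nontrivial E] (g : E) :
    (geAS p g).natDegree = p := by
  have hp : 1 < p := (Fact.out : p.Prime).one_lt
  unfold geAS
  rw [Polynomial.natDegree_sub_eq_left_of_natDegree_lt, Polynomial.natDegree_X_pow]
  rw [Polynomial.natDegree_X_add_C, Polynomial.natDegree_X_pow]
  exact hp

theorem ge_poly_rep {F : Type} [Field F] (g : Polynomial F) (τ : G)
    (C : Matrix G G (LaurentSeries F)) (Fb : MvPolynomial (G × G) (Polynomial F)) :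
    ∃ R : Polynomial (LaurentSeries F), R.natDegree < p ∧
      ∀ {Ω1 : Type} [CommRing Ω1] (i1 : LaurentSeries F →+* Ω1) (u1 : Ω1),
        u1 ^ p - u1 = i1 (px F g) →
        ev (i1.comp (px F)) (C.map i1 * Umat p τ u1) Fb = R.eval₂ i1 u1 := by
  set 𝒴 : Matrix G G (Polynomial (LaurentSeries F)) :=
    C.map Polynomial.C * Umat p τ Polynomial.X with h𝒴
  have hmon := geAS_monic (p := p) (px F g)
  refine ⟨(ev (Polynomial.C.comp (px F)) 𝒴 Fb) %ₘ (geAS p (px F g)), ?_, ?_⟩
  · have h1 := Polynomial.natDegree_modByMonic_lt (ev (Polynomial.C.comp (px F)) 𝒴 Fb) hmon (by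
      intro h
      have h2 := geAS_natDegree (p := p) (px F g)
      rw [h, Polynomial.natDegree_one] at h2
      exact (Fact.out : p.Prime).ne_zero h2.symm)
    rwa [geAS_natDegree] at h1
  · intro Ω1 _ i1 u1 hu1
    rw [Polynomial.eval₂_modByMonic_eq_self_of_root]
    · change _ = (Polynomial.eval₂RingHom i1 u1) _
      rw [ev_map]
      congr 1
      · congr 1
        · apply RingHom.ext
          intro q
          simp only [RingHom.comp_apply, Polynomial.coe_eval₂RingHom, Polynomial.eval₂_C]
        · rw [h𝒴, Matrix.map_mul, ge_umat_map]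
          congr 1
          · ext a b
            simp
          · simp
    · unfold geAS
      simp only [Polynomial.eval₂_sub, Polynomial.eval₂_pow, Polynomial.eval₂_X,
        Polynomial.eval₂_add, Polynomial.eval₂_C]
      rw [← hu1]
      ring

theorem ge_indep {F F' : Type} [Field F] [Field F'] [CharP F' p] (j : F →+* F') {τ : G}
    {g : Polynomial F} (hpos : 0 < g.natDegree) (hdvd : ¬ p ∣ g.natDegree)
    (C : Matrix G G (LaurentSeries F)) {Ω Ω' : Type} [CommRing Ω] [Field Ω']
    {i : LaurentSeries F →+* Ω} {u : Ω} (hu : u ^ p - u = i (px F g))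
    {i' : LaurentSeries F' →+* Ω'} {u' : Ω'} (hu' : u' ^ p - u' = i' (px F' (g.map j)))
    {ι : Type} (ω : ι → F')
    (hω : ∀ (s : Finset ι) (c : ι → F), ∑ b ∈ s, j (c b) * ω b = 0 → ∀ b ∈ s, c b = 0)
    (s : Finset ι) (f : ι → MvPolynomial (G × G) (Polynomial F))
    (h0 : ∑ b ∈ s, i' (HahnSeries.C (ω b)) *
      ev ((i'.comp (lm j)).comp (px F)) (C.map (i'.comp (lm j)) * Umat p τ u') (f b) = 0) :
    ∀ b ∈ s, ev (i.comp (px F)) (C.map i * Umat p τ u) (f b) = 0 := by
  classical
  choose R hRdeg hR using fun b => ge_poly_rep (p := p) g τ C (f b)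
  have hu'' : u' ^ p - u' = (i'.comp (lm j)) (px F g) := by
    rw [RingHom.comp_apply, lm_px]
    exact hu'
  set S : Polynomial (LaurentSeries F') :=
    ∑ b ∈ s, Polynomial.C (HahnSeries.C (ω b)) * (R b).map (lm j) with hS
  have hSdeg : S.natDegree < p := by
    have hp : 0 < p := (Fact.out : p.Prime).pos
    refine (Nat.lt_of_le_pred hp (Polynomial.natDegree_sum_le_of_forall_le s _ fun b _ => ?_))
    refine (Polynomial.natDegree_C_mul_le _ _).trans ?_
    refine (Polynomial.natDegree_map_le).trans ?_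
    exact Nat.le_pred_of_lt (hRdeg b)
  have hSev : S.eval₂ i' u' = 0 := by
    rw [hS, Polynomial.eval₂_finsetSum, ← h0]
    refine Finset.sum_congr rfl fun b _ => ?_
    rw [Polynomial.eval₂_mul, Polynomial.eval₂_C, Polynomial.eval₂_map,
      hR b (i'.comp (lm j)) u' hu'']
  have hS0 : S = 0 := by
    refine indep_as (p := p) i' i'.injective (RingHom.id _) Function.injective_id
      (px F' (g.map j)) (g.map j) rfl ?_ ?_ u' hu' S hSdeg hSev
    · rw [Polynomial.natDegree_map]; exact hpos
    · rw [Polynomial.natDegree_map]; exact hdvd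
  have hR0 : ∀ b ∈ s, R b = 0 := by
    intro b hb
    ext m n
    have h1 : ∑ b ∈ s, j (((R b).coeff m).coeff n) * ω b = 0 := by
      have h2 : (S.coeff m).coeff n = 0 := by rw [hS0]; simp
      rw [hS, Polynomial.finsetSum_coeff, HahnSeries.coeff_sum] at h2
      rw [← h2]
      refine Finset.sum_congr rfl fun b _ => ?_
      rw [Polynomial.coeff_C_mul, Polynomial.coeff_map, HahnSeries.C_mul_eq_smul,
        HahnSeries.coeff_smul, lm_coeff, smul_eq_mul, mul_comm]
    simpa using hω s (fun b => ((R b).coeff m).coeff n) h1 b hb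
  intro b hb
  rw [hR b i u hu, hR0 b hb, Polynomial.eval₂_zero]

/-- representable polynomials -/
def geRep {F F' : Type} [Field F] [Field F'] (j : F →+* F') {ι : Type} (ω : ι → F')
    (P : MvPolynomial (G × G) (Polynomial F')) : Prop :=
  ∃ f : ι →₀ MvPolynomial (G × G) (Polynomial F),
    P = f.sum fun b Fb => MvPolynomial.C (Polynomial.C (ω b)) *
      MvPolynomial.map (Polynomial.mapRingHom j) Fb

theorem geRep_add {F F' : Type} [Field F] [Field F'] {j : F →+* F'} {ι : Type} {ω : ι → F'}
    {P Q : MvPolynomial (G × G) (Polynomial F')} (hP : geRep j ω P) (hQ : geRep j ω Q) :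
    geRep j ω (P + Q) := by
  classical
  obtain ⟨f, rfl⟩ := hP
  obtain ⟨f', rfl⟩ := hQ
  refine ⟨f + f', ?_⟩
  rw [Finsupp.sum_add_index']
  · intro b; simp
  · intro b x y; rw [map_add, mul_add]

theorem geRep_mul {F F' : Type} [Field F] [Field F'] {j : F →+* F'} {ι : Type} {ω : ι → F'}
    {P : MvPolynomial (G × G) (Polynomial F')} (hP : geRep j ω P)
    (Q : MvPolynomial (G × G) (Polynomial F)) :
    geRep j ω (P * MvPolynomial.map (Polynomial.mapRingHom j) Q) := by
  classical
  obtain ⟨f, rfl⟩ := hP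
  refine ⟨f.mapRange (fun x => x * Q) (zero_mul Q), ?_⟩
  rw [Finsupp.sum_mapRange_index (by intro b; simp), Finsupp.sum_mul]
  refine Finsupp.sum_congr fun b _ => ?_
  rw [map_mul, mul_assoc]

theorem geRep_all {F F' : Type} [Field F] [Field F'] {j : F →+* F'} {ι : Type} {ω : ι → F'}
    (hω : ∀ a : F', ∃ c : ι →₀ F, a = c.sum fun b x => j x * ω b)
    (P : MvPolynomial (G × G) (Polynomial F')) : geRep j ω P := by
  classical
  have hC : ∀ a : F', geRep (G := G) j ω (MvPolynomial.C (Polynomial.C a)) := by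
    intro a
    obtain ⟨c, hc⟩ := hω a
    refine ⟨c.mapRange (fun x => MvPolynomial.C (Polynomial.C x)) (by simp), ?_⟩
    rw [Finsupp.sum_mapRange_index (by intro b; simp), hc]
    simp only [Finsupp.sum, map_sum, map_mul]
    refine Finset.sum_congr rfl fun b _ => ?_
    rw [MvPolynomial.map_C, Polynomial.coe_mapRingHom, Polynomial.map_C, mul_comm]
  induction P using MvPolynomial.induction_on with
  | C q =>
    induction q using Polynomial.induction_on' with
    | add q r hq hr => rw [map_add]; exact geRep_add hq hr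
    | monomial n a =>
      have h1 := geRep_mul (hC a) (MvPolynomial.C (Polynomial.X ^ n))
      rw [MvPolynomial.map_C, ← map_mul, Polynomial.coe_mapRingHom, Polynomial.map_pow,
        Polynomial.map_X, Polynomial.C_mul_X_pow_eq_monomial] at h1
      exact h1
  | add P Q hP hQ => exact geRep_add hP hQ
  | mul_X P n hP =>
    have h1 := geRep_mul hP (MvPolynomial.X n)
    rwa [MvPolynomial.map_X] at h1

theorem pcov_baseChange {F F' : Type} [Field F] [Field F'] [CharP F p] (j : F →+* F') {τ : G}
    {H : Subgroup G} (h : PCov p F τ H) : PCov p F' τ H := by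
  classical
  obtain ⟨g, C, Ω, _, i, u, hpos, hdvd, hC, hu, hFM⟩ := h
  have : CharP F' p := charP_of_injective_ringHom j.injective p
  let Ω' : Type := AlgebraicClosure (LaurentSeries F')
  let i' : LaurentSeries F' →+* Ω' := algebraMap _ _
  obtain ⟨u', hu'⟩ : ∃ u' : Ω', u' ^ p - u' = i' (px F' (g.map j)) := by
    obtain ⟨x, hx⟩ := IsAlgClosed.exists_root (geAS p (i' (px F' (g.map j)))) (by
      have h1 := (geAS_monic (p := p) (i' (px F' (g.map j)))).ne_zero
      rw [Polynomial.degree_eq_natDegree h1, geAS_natDegree]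
      exact_mod_cast (Fact.out : p.Prime).ne_zero)
    refine ⟨x, ?_⟩
    unfold geAS at hx
    simp only [Polynomial.IsRoot, Polynomial.eval_sub, Polynomial.eval_pow, Polynomial.eval_X,
      Polynomial.eval_add, Polynomial.eval_C] at hx
    linear_combination hx
  -- basis of `F'` over `F`
  let _ : Algebra F F' := j.toAlgebra
  let bas := Module.Basis.ofVectorSpace F F'
  let ι : Type := ↥(Module.Basis.ofVectorSpaceIndex F F')
  let ω : ι → F' := fun b => bas b
  have hω1 : ∀ (s : Finset ι) (c : ι → F), ∑ b ∈ s, j (c b) * ω b = 0 → ∀ b ∈ s, c b = 0 :=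
    linearIndependent_iff'.1 bas.linearIndependent
  have hω2 : ∀ a : F', ∃ c : ι →₀ F, a = c.sum fun b x => j x * ω b := by
    intro a
    refine ⟨bas.repr a, ?_⟩
    conv_lhs => rw [← bas.linearCombination_repr a, Finsupp.linearCombination_apply]
    rfl
  set φ := i.comp (px F) with hφ
  set Y := C.map i * Umat p τ u with hY
  set ψ := (i'.comp (lm j)).comp (px F) with hψ
  set Y' := C.map (i'.comp (lm j)) * Umat p τ u' with hY'
  have hu'' : u' ^ p - u' = (i'.comp (lm j)) (px F g) := by
    rw [RingHom.comp_apply, lm_px]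
    exact hu'
  have hrel : Rel φ Y ψ Y' := by
    intro Fb hFb
    obtain ⟨R, hRd, hR⟩ := ge_poly_rep (p := p) g τ C Fb
    have h1 := hR i u hu
    rw [hFb] at h1
    have h2 := indep_as (p := p) i i.injective (RingHom.id _)
      Function.injective_id (px F g) g rfl hpos hdvd u hu R hRd h1.symm
    rw [hR (i'.comp (lm j)) u' hu'', h2, Polynomial.eval₂_zero]
  have hψ' : ψ = (i'.comp (px F')).comp (Polynomial.mapRingHom j) := by
    ext q
    · simp [hψ, lm_px]
    · simp [hψ, lm_px]
  have hYY : (C.map (lm j)).map i' * Umat p τ u' = Y' := by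
    rw [hY', Matrix.map_map]
    rfl
  have hEV : ∀ (Z : Matrix G G Ω') (f : ι →₀ MvPolynomial (G × G) (Polynomial F)),
      ev (i'.comp (px F')) Z (f.sum fun b Fb => MvPolynomial.C (Polynomial.C (ω b)) *
        MvPolynomial.map (Polynomial.mapRingHom j) Fb) =
      ∑ b ∈ f.support, i' (HahnSeries.C (ω b)) * ev ψ Z (f b) := by
    intro Z f
    rw [Finsupp.sum, map_sum]
    refine Finset.sum_congr rfl fun b _ => ?_
    rw [map_mul, ev_C, ev_mapCoeff, ← hψ', RingHom.comp_apply]
    congr 2
    simp [px]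
  have hind := fun (s : Finset ι) (f : ι → MvPolynomial (G × G) (Polynomial F)) h0 =>
    ge_indep (p := p) j (τ := τ) hpos hdvd C hu hu' ω hω1 s f h0
  refine ⟨g.map j, C.map (lm j), Ω', inferInstance, i', u', ?_, ?_, ?_, hu', ?_⟩
  · rw [Polynomial.natDegree_map]; exact hpos
  · rw [Polynomial.natDegree_map]; exact hdvd
  · have := hC.map (RingHom.mapMatrix (m := G) (lm j))
    exact this
  rw [hYY]
  obtain ⟨b0⟩ : Nonempty ι := bas.index_nonempty
  have hconv : ∀ Fb : MvPolynomial (G × G) (Polynomial F), ev ψ Y' Fb = 0 → ev φ Y Fb = 0 := by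
    intro Fb hFb
    refine hind {b0} (fun _ => Fb) ?_ b0 (Finset.mem_singleton_self b0)
    rw [Finset.sum_singleton, hFb, mul_zero]
  refine ⟨?_, ?_, ?_, ?_⟩
  · -- unit
    rw [Matrix.isUnit_iff_isUnit_det, isUnit_iff_ne_zero]
    intro hdet
    set M : Matrix G G (MvPolynomial (G × G) (Polynomial F)) :=
      Matrix.of fun a b => MvPolynomial.X (a, b) with hM
    have hM1 : ∀ {Ω1 : Type} [CommRing Ω1] (φ1 : Polynomial F →+* Ω1) (Z : Matrix G G Ω1),
        ev φ1 Z M.det = Z.det := by
      intro Ω1 _ φ1 Z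
      rw [RingHom.map_det]
      congr 1
      ext a b
      simp [hM]
    have h1 := hconv M.det (by rw [hM1]; exact hdet)
    rw [hM1] at h1
    have h2 := hFM.unit
    rw [Matrix.isUnit_iff_isUnit_det, isUnit_iff_ne_zero] at h2
    exact h2 h1
  · -- frob
    obtain ⟨Ψ, hΨ, hΨ2⟩ := hFM.frob
    refine ⟨Ψ.map (Polynomial.mapRingHom j), hΨ.map (RingHom.mapMatrix (m := G) (Polynomial.mapRingHom j)), ?_⟩
    ext a b
    have h1 := hrel (MvPolynomial.X (a, b) ^ p -
      ∑ l, MvPolynomial.C (Ψ a l) * MvPolynomial.X (l, b)) (by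
        rw [map_sub, map_pow, map_sum, ev_X, sub_eq_zero]
        have h2 := congrFun (congrFun hΨ2 a) b
        rw [Matrix.map_apply, Matrix.mul_apply] at h2
        refine h2.trans (Finset.sum_congr rfl fun l _ => ?_)
        rw [map_mul, ev_C, ev_X, Matrix.map_apply])
    rw [map_sub, map_pow, map_sum, ev_X, sub_eq_zero] at h1
    rw [Matrix.map_apply, Matrix.mul_apply]
    refine h1.trans (Finset.sum_congr rfl fun l _ => ?_)
    rw [map_mul, ev_C, ev_X, Matrix.map_apply, Matrix.map_apply, hψ', RingHom.comp_apply]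
  · -- sym
    intro x hx P hP
    obtain ⟨f, rfl⟩ := geRep_all (G := G) (j := j) (ω := ω) hω2 P
    rw [hEV] at hP ⊢
    refine Finset.sum_eq_zero fun b hb => ?_
    have h1 := hind f.support f hP b hb
    have h2 := hFM.sym x hx (f b) h1
    rw [← ev_sh] at h2
    have h3 := hrel _ h2
    rw [ev_sh] at h3
    rw [h3, mul_zero]
  · -- fix
    intro P hP
    obtain ⟨f, rfl⟩ := geRep_all (G := G) (j := j) (ω := ω) hω2 P
    have h1 : ∀ b ∈ f.support, ∀ x ∈ H, ev φ (actM x Y) (f b) = ev φ Y (f b) := by
      intro b hb x hx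
      have h2 := hP x hx
      rw [hEV, hEV, ← sub_eq_zero, ← Finset.sum_sub_distrib] at h2
      have h3 := hind f.support (fun b => sh x (f b) - f b) (by
        rw [← h2]
        refine Finset.sum_congr rfl fun b _ => ?_
        rw [map_sub, ev_sh, mul_sub]) b hb
      simp only [map_sub, ev_sh] at h3
      exact sub_eq_zero.1 h3
    have h4 : ∀ b, ∃ r : Polynomial F, b ∈ f.support → ev φ Y (f b) = φ r := by
      intro b
      by_cases hb : b ∈ f.support
      · obtain ⟨r, hr⟩ := hFM.fix (f b) (h1 b hb)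
        exact ⟨r, fun _ => hr⟩
      · exact ⟨0, fun h => absurd h hb⟩
    choose r hr using h4
    refine ⟨∑ b ∈ f.support, Polynomial.C (ω b) * (r b).map j, ?_⟩
    rw [hEV, map_sum]
    refine Finset.sum_congr rfl fun b hb => ?_
    have h5 : ev ψ Y' (f b) = ψ (r b) := by
      have h6 := hrel (f b - MvPolynomial.C (r b)) (by
        rw [map_sub, ev_C, hr b hb, sub_self])
      rw [map_sub, ev_C, sub_eq_zero] at h6
      exact h6
    have h7 : px F' (Polynomial.C (ω b)) = HahnSeries.C (ω b) := by simp [px]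
    rw [h5, hψ']
    simp only [RingHom.comp_apply, map_mul, Polynomial.coe_mapRingHom, h7]

end ge

end Pool.Agent.Helper54.FP
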