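import Pool.Agent.Helper54.FP.Inst

/-!
# FP-7: the field generated by the entries of a fundamental matrix
-/

set_option autoImplicit false
set_option linter.unusedVariables false
set_option linter.unusedSectionVars false
open scoped Pointwise

namespace Pool.Agent.Helper54.FP

section FMsec
variable {p : ℕ} [Fact p.Prime] {G : Type} [Group G] [Fintype G] [DecidableEq G]

/-- The automorphism of the ring generated by the entries. -/
theorem sf_exists_delta {R Ω : Type} [CommRing R] [Field Ω] {φ : R →+* Ω} {Y : Matrix G G Ω}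
    {H : Subgroup G} (h : FM p φ Y H) (g : G) (hg : g ∈ H) :
    ∃ δ : (ev φ Y).range →+* (ev φ Y).range, Function.Injective δ ∧
      ∀ F, ((δ ((ev φ Y).rangeRestrict F) : (ev φ Y).range) : Ω) = ev φ (actM g Y) F := by
  set e := (ev φ Y).rangeRestrict with he
  have hes : Function.Surjective e := (ev φ Y).rangeRestrict_surjective
  have hev : ∀ F, ((e F : (ev φ Y).range) : Ω) = ev φ Y F := fun F => rfl
  have hker : RingHom.ker e ≤ RingHom.ker (e.comp (sh g)) := by
    intro F hF
    rw [RingHom.mem_ker] at hF ⊢
    have h1 : ev φ Y F = 0 := by rw [← hev, hF]; rfl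
    apply Subtype.ext
    rw [RingHom.comp_apply, hev, ev_sh]
    exact h.sym g hg F h1
  refine ⟨e.liftOfSurjective hes ⟨e.comp (sh g), hker⟩, ?_, ?_⟩
  · rw [injective_iff_map_eq_zero]
    intro b hb
    obtain ⟨F, rfl⟩ := hes b
    rw [RingHom.liftOfSurjective_comp_apply] at hb
    have h1 : ev φ Y (sh g F) = 0 := by
      rw [← hev]
      have : e (sh g F) = 0 := hb
      rw [this]
      rfl
    have h2 := h.sym g⁻¹ (H.inv_mem hg) (sh g F) h1
    rw [ev_sh, actM_actM, inv_mul_cancel, actM_one] at h2
    apply Subtype.ext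
    rw [hev, h2]
    rfl
  · intro F
    rw [RingHom.liftOfSurjective_comp_apply]
    change ((e (sh g F) : (ev φ Y).range) : Ω) = _
    rw [hev, ev_sh]

theorem exists_field {R Ω : Type} [CommRing R] [Field Ω] {φ : R →+* Ω} {Y : Matrix G G Ω}
    {H : Subgroup G} (h : FM p φ Y H) :
    ∃ (L : Type) (_ : Field L) (φL : R →+* L) (YL : Matrix G G L) (incl : L →+* Ω),
      incl.comp φL = φ ∧ YL.map incl = Y ∧
      ∀ g ∈ H, ∃ δ : L →+* L, δ.comp φL = φL ∧ YL.map δ = actM g YL := by
  set B := (ev φ Y).range with hB
  set e : MvPolynomial (G × G) R →+* B := (ev φ Y).rangeRestrict with he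
  have hev : ∀ F, ((e F : B) : Ω) = ev φ Y F := fun F => rfl
  let L := FractionRing B
  have hinj : Function.Injective B.subtype := Subtype.val_injective
  let incl : L →+* Ω := IsFractionRing.lift (A := B) (K := L) hinj
  have hincl : ∀ b : B, incl (algebraMap B L b) = (b : Ω) := fun b =>
    IsFractionRing.lift_algebraMap hinj b
  refine ⟨L, inferInstance, (algebraMap B L).comp (e.comp MvPolynomial.C),
    fun i j => algebraMap B L (e (MvPolynomial.X (i, j))), incl, ?_, ?_, ?_⟩
  · ext r
    simp only [RingHom.comp_apply]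
    rw [hincl, hev, ev_C]
  · ext i j
    simp only [Matrix.map_apply]
    rw [hincl, hev, ev_X]
  · intro g hg
    obtain ⟨δ, hδ, hδ2⟩ := sf_exists_delta h g hg
    refine ⟨IsFractionRing.map (A := B) (B := B) (K := L) (L := L) hδ, ?_, ?_⟩
    · ext r
      simp only [RingHom.comp_apply]
      rw [IsFractionRing.map, IsLocalization.map_eq]
      congr 1
      apply Subtype.ext
      have := hδ2 (MvPolynomial.C r)
      rw [ev_C] at this
      refine this.trans ?_
      rw [hev, ev_C]
    · ext i j
      simp only [Matrix.map_apply, actM_apply]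
      rw [IsFractionRing.map, IsLocalization.map_eq]
      congr 1
      apply Subtype.ext
      have := hδ2 (MvPolynomial.X (i, j))
      rw [ev_X, actM_apply] at this
      refine this.trans ?_
      rw [hev, ev_X]

end FMsec

end Pool.Agent.Helper54.FP
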